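import Pool.Agent.H60.AFF.Ano
import Pool.Agent.H2.GEN.AttF
import Pool.Agent.H2.GEN.Swp

/-!
# A chart of degree one near the chart of `u`

`aff_att`: if on a part of the event there is a chart of degree one of `u = c 2`, over any lower
charts, of radius and window at least those of the closed window, then the second derivatives of the
closed chart of `u` are natural, up to the difference of the precisions.
-/

set_option autoImplicit false

namespace Pool.AFF60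

open Finset Real MvPolynomial
open Pool.Agent.H49.Ent Pool.Agent.H32.Dense Pool.STK Pool.KA Pool.KSAT Pool.K2S Pool.PB Pool.S6C
open Pool.GEN Pool.CHT Pool.CHX Pool.ISO Pool.D2R
open Pool.CUB46 (h3)
open Pool.AFF82 (AfN afc afp afs afo pul psh eval_pul pul_deg pul_afc afc_afp eval_psh eval_afo
  psh_deg psh_dep pd_bd)
open Pool.CNC76 Pool.CNC28

/-- The degree decreases. -/
theorem deg_pd {σ : Type} {F : MvPolynomial σ ℝ} {D : ℕ} (h : F.totalDegree ≤ D + 1) (i : σ) :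
    (pderiv i F).totalDegree ≤ D := by
  classical
  rw [totalDegree]
  refine Finset.sup_le fun k hk => ?_
  have h1 : coeff k (MvPolynomial.pderiv i F) ≠ 0 := mem_support_iff.1 hk
  rw [coeff_pderiv] at h1
  have h2 : (k + Finsupp.single i 1) ∈ F.support := mem_support_iff.2 (left_ne_zero_of_mul h1)
  have h3 : ((k + Finsupp.single i 1).sum fun _ x => x) ≤ F.totalDegree := le_totalDegree h2
  have h4 : ((k + Finsupp.single i 1).sum fun _ x => x) = (k.sum fun _ x => x) + 1 := by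
    rw [Finsupp.sum_add_index' (fun _ => rfl) (fun _ _ _ => rfl), Finsupp.sum_single_index rfl]
  omega

/-- The second derivatives of a polynomial of degree one. -/
theorem h3_one {P : MvPolynomial (Fin 3) ℝ} (hP : P.totalDegree ≤ 1) (b : Fin 3 → ℝ)
    (i j : Fin 3) : h3 P b i j = 0 := by
  have h1 : (pderiv j P).totalDegree = 0 := Nat.le_zero.1 (deg_pd hP j)
  have h2 := totalDegree_eq_zero_iff_eq_C.1 h1
  unfold h3
  rw [h2, pderiv_C, map_zero]

/-- **A chart of degree one near the chart of `u`.** -/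
theorem aff_att (D : ℕ) (hD : 1 ≤ D) : ∃ C : ℕ, ∀ {m J : ℕ} {F : Fam m J} {c : ℕ → Fin m}
    {B B' : F.Ω → Prop} {n k e e' Dr h u a₀ w₀ : ℕ} {w : ℕ → ℕ} {g : ℕ → ℕ → ℕ} {g' : ℕ → ℕ}
    {G : ℕ → PtT F → ℕ → MvPolynomial (Option (Fin m)) ℝ}
    {H : LnT F → ℕ → MvPolynomial (Option (Fin m)) ℝ} {N : F.Ω → AfN} {o s0 s1 sm : ℕ}
    {ctr : ℕ → F.Ω → Fin 3 → ℝ} {ρ : ℕ → ℝ} {κ κ' : ℝ}, Set.InjOn c (Set.Iio 3) →
    Frm F c B n w g G N o s0 s1 sm ctr ρ → k ≤ n → w k ≤ J →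
    ChOK F c 3 (fun _ => D) (w k) (w k) e (g k) B (G k) H →
    RelvF F c 3 (w k) (w k) (g k) Dr h κ B (G k) → D ≤ Dr →
    (∀ ω, B' ω → B ω) → κ' * Pe F.p B ≤ Pe F.p B' → κ * 2 ^ 4 ≤ κ' →
    a₀ ≤ w k → w₀ ≤ w k → g k 2 ≤ g' 2 + u →
    ChN F c 3 (fun j => if j = 2 then 1 else D) a₀ w₀ e' g' B' →
    ∃ B'' : F.Ω → Prop, (∀ ω, B'' ω → B' ω) ∧ Pe F.p B' ≤ 8 * Pe F.p B'' ∧
      ∀ ω, B'' ω → ∀ b, Cu (ctr k ω) (ρ k) b → ∀ i j,
        |h3 (UU F c G N o s0 s1 k ω) b i j| ≤ 2 ^ (C * (h + sm + 1) + u) / 2 ^ g k 2 / ρ k ^ 2 := by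
  classical
  obtain ⟨C₁, hmv⟩ := move_pre D 4 hD
  obtain ⟨C₂, hC₂, hgro⟩ := gro_cu D
  obtain ⟨C₃, hC₃, hhes⟩ := hes_cu D
  obtain ⟨c₂, hc₂⟩ := pow_unbounded_of_one_lt (C₂ * C₃) (one_lt_two (α := ℝ))
  refine ⟨C₁ + c₂ + D + 2, ?_⟩
  intro m J F c B B' n k e e' Dr h u a₀ w₀ w g g' G H N o s0 s1 sm ctr ρ κ κ' hc V hk hwJ hOK hR
    hDr hB hP hκ ha hw hg hch
  have hc2 : Set.InjOn c (Set.Iio 2) := hc.mono fun x hx => by
    rw [Set.mem_Iio] at hx ⊢
    omega
  obtain ⟨hρ, -⟩ := V.ρ0 k hk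
  -- the chart of degree one, for the list of `move_pre`
  have h0 : ChN F (pch c 2 (c 2)) (2 + 1) (fun j => if j = 2 then 1 else D) (w k) (w k) e' g' B' :=
    ChN.congr (hch.mono le_rfl (fun _ _ => le_rfl) ha hw hwJ le_rfl) (fun l hl => by
      rcases (show l < 2 ∨ l = 2 by omega) with h1 | h1
      · rw [pch_lt h1]
      · rw [h1, pch_self]) fun _ _ => rfl
  obtain ⟨G', H', hL⟩ := h0
  have hL' : ChOK F (pch c 2 (c 2)) (2 + 1) (fun _ => D) (w k) (w k) e' g' B' G' H' :=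
    hL.mono le_rfl (fun i => by
      show (if i = 2 then 1 else D) ≤ D
      split_ifs
      · exact hD
      · exact le_rfl) le_rfl le_rfl
  obtain ⟨B₁, k1, k2, k3⟩ := hmv (i := 3) (l := 2) (k := c 2) (G := G k) (by norm_num)
    (by norm_num) hc (hR.mono hDr le_rfl) hB hP hκ hL'
  -- the difference is small on the box
  obtain ⟨M, hM⟩ : ∃ M : ℝ, M = 2 ^ (C₁ * (h + 1) + u + 1) / 2 ^ g k 2 := ⟨_, rfl⟩
  have hM0 : 0 < M := by rw [hM]; positivity
  have hinv : (1 : ℝ) / 2 ^ g' 2 ≤ 2 ^ u / 2 ^ g k 2 := by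
    rw [div_le_div_iff₀ (by positivity) (by positivity), one_mul, ← pow_add]
    exact pow_le_pow_right₀ (by norm_num) (by omega)
  have hdG : ∀ y, DepC c 2 (G' y 2) := fun y b b' hn hb => hL.depG y 2 b b' hn fun l hl => by
    rw [pch_lt hl]
    exact hb l hl
  have hdH : ∀ s, DepC c 2 (H' s 2) := fun s b b' hn hb => hL.depH s 2 b b' hn fun l hl => by
    rw [pch_lt hl]
    exact hb l hl
  have hPB₁ : 0 ≤ Pe F.p B₁ := Pe_nonneg F.isLaw B₁
  obtain ⟨B₂, l1, l2, l3⟩ := hR B₁ (fun ω hω => hB ω (k1 ω hω)) (by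
      rcases le_or_gt (κ * Pe F.p B) 0 with h1 | h1
      · exact h1.trans hPB₁
      · have h2 : κ * 2 ^ 4 * Pe F.p B ≤ κ' * Pe F.p B :=
          mul_le_mul_of_nonneg_right hκ (Pe_nonneg F.isLaw B)
        have h3 : Pe F.p B' / 2 ^ 2 ≤ Pe F.p B₁ := k2
        linarith)
    (fun y => G k y 2 - G' y 2) (fun s => H s 2 - H' s 2) M
    (fun y => (totalDegree_sub _ _).trans (max_le ((hOK.degG y 2).trans hDr)
      ((hL'.degG y 2).trans hDr)))
    (fun s => (totalDegree_sub _ _).trans (max_le ((hOK.degH s 2).trans hDr)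
      ((hL'.degH s 2).trans hDr)))
    (fun y b b' hn hb => by
      rw [map_sub, map_sub, hOK.depG y 2 b b' hn fun l hl => hb l (by omega),
        hdG y b b' hn fun l hl => hb l (by omega)])
    (fun s b b' hn hb => by
      rw [map_sub, map_sub, hOK.depH s 2 b b' hn fun l hl => hb l (by omega),
        hdH s b b' hn fun l hl => hb l (by omega)]) hM0
    (fun ω hω => by
      have h1 := hOK.pos ω (hB ω (k1 ω hω)) 2 (by norm_num)
      have h2 := hL.pos ω (k1 ω hω) 2 (by norm_num)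
      rw [pch_self] at h2
      rw [map_sub]
      have e1 : eval (bt F ω) (G k (ptr F J ω) 2) - eval (bt F ω) (G' (ptr F J ω) 2) =
          (F.x ω (c 2) - eval (bt F ω) (G' (ptr F J ω) 2)) -
          (F.x ω (c 2) - eval (bt F ω) (G k (ptr F J ω) 2)) := by ring
      rw [e1]
      refine (abs_sub _ _).trans ((add_le_add (h2.trans hinv) h1).trans ?_)
      rw [← add_div, hM]
      refine div_le_div_of_nonneg_right ?_ (by positivity)
      have h3 : (1 : ℝ) ≤ 2 ^ u := one_le_pow₀ (by norm_num)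
      have h4 : (2 : ℝ) ^ u * 2 ≤ 2 ^ (C₁ * (h + 1) + u + 1) := by
        rw [← pow_succ]
        exact pow_le_pow_right₀ (by norm_num) (by omega)
      linarith)
    (fun ω hω b hb => by
      have h1 := hOK.agr ω (hB ω (k1 ω hω)) 2 (by norm_num) b (hb.mono le_rfl (by norm_num))
      have h2 := (k3 ω hω b hb).2
      rw [map_sub, map_sub]
      have e1 : eval b (G k (ptr F J ω) 2) - eval b (G' (ptr F J ω) 2) -
          (eval b (H (slam F (w k) ω) 2) - eval b (H' (slam F (w k) ω) 2)) =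
          (eval b (G k (ptr F J ω) 2) - eval b (H (slam F (w k) ω) 2)) -
          (eval b (G' (ptr F J ω) 2) - eval b (H' (slam F (w k) ω) 2)) := by ring
      rw [e1]
      refine (abs_sub _ _).trans ((add_le_add h1 h2).trans ?_)
      have h3 : (2 : ℝ) ^ (C₁ * (h + 1)) / 2 ^ g' 2 ≤ 2 ^ (C₁ * (h + 1)) * (2 ^ u / 2 ^ g k 2) := by
        rw [← mul_one_div]
        exact mul_le_mul_of_nonneg_left hinv (by positivity)
      refine (add_le_add le_rfl h3).trans ?_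
      rw [hM, ← mul_div_assoc, ← pow_add, ← add_div]
      refine div_le_div_of_nonneg_right ?_ (by positivity)
      have h4 : (1 : ℝ) ≤ 2 ^ (C₁ * (h + 1) + u) := one_le_pow₀ (by norm_num)
      rw [pow_succ]
      linarith)
  refine ⟨B₂, fun ω hω => k1 ω (l1 ω hω), ?_, fun ω hω b hb i j => ?_⟩
  · have h3 : Pe F.p B' / 2 ^ 2 ≤ Pe F.p B₁ := k2
    linarith
  -- in the frame
  have hωB : B ω := hB ω (k1 ω (l1 ω hω))
  obtain ⟨U', hU'⟩ : ∃ U', U' = pul c (N ω) o s0 s1 0 (G' (ptr F J ω) 2) := ⟨_, rfl⟩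
  have z0 : (0 : MvPolynomial (Fin 3) ℝ).totalDegree ≤ 1 := by
    rw [totalDegree_zero]
    exact Nat.zero_le _
  have dU' : U'.totalDegree ≤ 1 := by
    have h1 := pul_deg (c := c) (N := N ω) (o := o) (s0 := s0) (s1 := s1)
      (U := (0 : MvPolynomial (Fin 3) ℝ)) (K := 1) z0 le_rfl (hL.degG (ptr F J ω) 2)
    rw [mul_one, if_pos rfl] at h1
    rw [hU']
    exact h1
  have dU : (UU F c G N o s0 s1 k ω).totalDegree ≤ D := by
    have h1 := pul_deg (c := c) (N := N ω) (o := o) (s0 := s0) (s1 := s1)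
      (U := (0 : MvPolynomial (Fin 3) ℝ)) (K := 1) z0 le_rfl (hOK.degG (ptr F J ω) 2)
    rwa [mul_one] at h1
  have dP : (UU F c G N o s0 s1 k ω - U').totalDegree ≤ D :=
    (totalDegree_sub _ _).trans (max_le dU (dU'.trans hD))
  have hsm0 : (0 : ℝ) < 2 ^ sm := by positivity
  have hsmall : ∀ b : Fin 3 → ℝ, Cu (ctr k ω) (ρ k / 2 ^ sm) b →
      |eval b (UU F c G N o s0 s1 k ω - U')| ≤ 2 ^ h * M := by
    intro b hb
    obtain ⟨b₀, q1, q2, q3, -⟩ := nbx_ext hc (hdep := fun l => hOK.depG (ptr F J ω) l)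
      (i := 3) (j := 2) (by norm_num) (V.sml k hk ω hωB b hb 0)
    have h1 := l3 ω hω b₀ q1
    rw [map_sub, hOK.depG (ptr F J ω) 2 b₀ (afp c (N ω) o s0 s1 0 b) q2 q3,
      hdG (ptr F J ω) b₀ (afp c (N ω) o s0 s1 0 b) q2 q3] at h1
    rw [map_sub, hU']
    show |eval b (pul c (N ω) o s0 s1 0 (G k (ptr F J ω) 2)) - _| ≤ _
    rw [eval_pul, eval_pul, map_zero]
    exact h1
  have hbig : ∀ b : Fin 3 → ℝ, Cu (ctr k ω) (ρ k) b →
      |eval b (UU F c G N o s0 s1 k ω - U')| ≤ C₂ * (2 ^ sm) ^ D * (2 ^ h * M) := by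
    intro b hb
    refine hgro dP (one_le_pow₀ (by norm_num)) (by positivity) hsmall b ?_
    rw [mul_div_cancel₀ _ hsm0.ne']
    exact hb
  have h1 := hhes dP hρ hbig i j b hb
  rw [h3_sub, h3_one dU', sub_zero] at h1
  refine h1.trans (div_le_div_of_nonneg_right ?_ (by positivity))
  rw [hM]
  have e1 : C₃ * (C₂ * (2 ^ sm) ^ D * (2 ^ h * (2 ^ (C₁ * (h + 1) + u + 1) / 2 ^ g k 2))) =
      (C₂ * C₃) * (2 ^ (sm * D) * 2 ^ h * 2 ^ (C₁ * (h + 1) + u + 1)) / 2 ^ g k 2 := by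
    rw [← pow_mul]
    ring
  rw [e1]
  refine div_le_div_of_nonneg_right ?_ (by positivity)
  refine (mul_le_mul_of_nonneg_right hc₂.le (by positivity)).trans ?_
  rw [← pow_add, ← pow_add, ← pow_add]
  refine pow_le_pow_right₀ (by norm_num) ?_
  have e2 : (C₁ + c₂ + D + 2) * (h + sm + 1) + u = C₁ * (h + 1) + C₁ * sm + c₂ * (h + sm) + c₂ +
      D * sm + D * (h + 1) + 2 * h + 2 * sm + 2 + u := by ring
  rw [e2]
  have e3 : sm * D = D * sm := Nat.mul_comm _ _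
  have p1 := Nat.zero_le (C₁ * sm)
  have p2 := Nat.zero_le (c₂ * (h + sm))
  have p3 := Nat.zero_le (D * (h + 1))
  omega

end Pool.AFF60
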