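import Pool.Agent.H2.GEN.ChB
import Pool.Agent.H2.GEN.AttG

/-!
# Thresholds of charts of degree one

`Cha θ D l k K a w P`: a chain of two-sided labels of the coordinates in the list `l`, of degree `D`,
and of the target `k`, of degree one; `K` is the class of the gradients only. `affsys m`: the system,
for all rational `θ` and all `D` at once. `no_aff`: no better label; `att_aff`: the labels of the
threshold; `aff_lab`: their radius is near the radius of the point, if the slope is more than one.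
-/

set_option autoImplicit false

namespace Pool.AFF60

open Finset Real MvPolynomial
open Pool.Agent.H49.Ent Pool.Agent.H32.Dense Pool.STK Pool.KA Pool.KSAT Pool.K2S Pool.PB Pool.S6C
open Pool.GEN Pool.CHT
open Pool.LBT (LSys Slo Tri ThrOf)
open Pool.LEV (Law)

variable {m J : ℕ}

/-- The degrees: the coordinate `i` has degree one, the others have degree `D`. -/
def dg1 (D i j : ℕ) : ℕ := if j = i then 1 else D

/-- **Chain labels with a target of degree one.** -/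
def Cha (θ : ℝ) (D : ℕ) (l : List (Fin m)) (k : Fin m) (K a w P : ℕ) : Stat m := fun J F A =>
  ∃ (a₀ w₀ : ℕ) (g : ℕ → ℕ), w₀ ≤ a₀ ∧ a₀ ≤ a ∧ w₀ ≤ w ∧ P + a₀ ≤ g l.length + a ∧
    (∀ j ≤ l.length, g j ≤ J) ∧
    ChN F (fun j => l.getD j k) (l.length + 1) (dg1 D l.length) a₀ w₀ (lipE θ K w J) g A

theorem Cha.her (θ : ℝ) (D : ℕ) (l : List (Fin m)) (k : Fin m) (K a w P J : ℕ) (F : Fam m J) :
    Hered (Cha θ D l k K a w P J F) := by
  rintro A B hB ⟨a₀, w₀, g, h1, h2, h3, h4, h5, h⟩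
  exact ⟨a₀, w₀, g, h1, h2, h3, h4, h5, ChN.hered F _ _ _ _ _ _ _ A B hB h⟩

theorem Cha.anti {θ : ℝ} {D : ℕ} {l : List (Fin m)} {k : Fin m} {K a w P P' : ℕ} {F : Fam m J}
    {A : F.Ω → Prop} (hP : P' ≤ P) (h : Cha θ D l k K a w P J F A) :
    Cha θ D l k K a w P' J F A := by
  obtain ⟨a₀, w₀, g, h1, h2, h3, h4, h5, h⟩ := h
  exact ⟨a₀, w₀, g, h1, h2, h3, by omega, h5, h⟩

theorem Cha.mono {θ : ℝ} {D : ℕ} {l : List (Fin m)} {k : Fin m} {K K' a a' w w' P : ℕ}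
    {F : Fam m J} {A : F.Ω → Prop} (hK : K ≤ K') (ha : a ≤ a') (hw : w ≤ w')
    (h : Cha θ D l k K a w P J F A) : Cha θ D l k K' a' w' P J F A := by
  obtain ⟨a₀, w₀, g, h1, h2, h3, h4, h5, G, H, h⟩ := h
  exact ⟨a₀, w₀, g, h1, h2.trans ha, h3.trans hw, by omega, h5, G, H,
    h.mono le_rfl (fun _ => le_rfl) le_rfl (lipE_mono hK hw)⟩

/-- **The slope**. -/
theorem Cha.slope {θ : ℝ} {D : ℕ} {l : List (Fin m)} {k : Fin m} {K a w P v : ℕ} {F : Fam m J}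
    {A : F.Ω → Prop} (h : Cha θ D l k K a w P J F A) : Cha θ D l k K (a + v) w (P + v) J F A := by
  obtain ⟨a₀, w₀, g, h1, h2, h3, h4, h5, h⟩ := h
  exact ⟨a₀, w₀, g, h1, by omega, h3, by omega, h5, h⟩

/-- A chain is a label of its last coordinate, for every list. -/
theorem Cha.of_chN {θ : ℝ} {D : ℕ} {c : ℕ → Fin m} {i : ℕ} {K₀ a w a₀ w₀ e P : ℕ}
    {g : ℕ → ℕ} {F : Fam m J} {A : F.Ω → Prop} (h : ChN F c (i + 1) (dg1 D i) a₀ w₀ e g A)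
    (hwa : w₀ ≤ a₀) (ha : a₀ ≤ a) (hw : w₀ ≤ w) (hP : P + a₀ ≤ g i + a)
    (he : e ≤ lipE θ K₀ w J) (hg : ∀ l ≤ i, g l ≤ J) :
    Cha θ D ((List.range i).map c) (c i) K₀ a w P J F A := by
  have hlen : ((List.range i).map c).length = i := by simp
  refine ⟨a₀, w₀, g, hwa, ha, hw, ?_, ?_, ?_⟩
  · rw [hlen]
    exact hP
  · rw [hlen]
    exact hg
  · rw [hlen]
    obtain ⟨G, H, h1⟩ := h
    refine ChN.congr ⟨G, H, h1.mono le_rfl (fun _ => le_rfl) le_rfl he⟩ (fun l hl => ?_)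
      fun _ _ => rfl
    rcases Nat.lt_or_ge l i with h2 | h2
    · simp [h2]
    · have : l = i := by omega
      subst this
      simp

/-- The chain of the list of the first coordinates. -/
theorem cha_chN {θ : ℝ} {D : ℕ} {c : ℕ → Fin m} {l : ℕ} {K a w Q : ℕ} {F : Fam m J}
    {A : F.Ω → Prop} (h : Cha θ D ((List.range l).map c) (c l) K a w Q J F A) :
    ∃ (a₀ w₀ : ℕ) (g : ℕ → ℕ), w₀ ≤ a₀ ∧ a₀ ≤ a ∧ w₀ ≤ w ∧ Q + a₀ ≤ g l + a ∧
      (∀ j ≤ l, g j ≤ J) ∧ ChN F c (l + 1) (dg1 D l) a₀ w₀ (lipE θ K w J) g A := by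
  have hlen : ((List.range l).map c).length = l := by simp
  obtain ⟨a₀, w₀, g, h1, h2, h3, h4, h5, h6⟩ := h
  rw [hlen] at h4 h5 h6
  refine ⟨a₀, w₀, g, h1, h2, h3, h4, h5, ChN.congr h6 (fun j hj => ?_) fun _ _ => rfl⟩
  rcases Nat.lt_or_ge j l with h7 | h7
  · simp [h7]
  · have : j = l := by omega
    subst this
    simp

/-- A label of degree one is a label. -/
theorem Cha.cht {θ θ' : ℝ} {D : ℕ} {l : List (Fin m)} {k : Fin m} {K K' a w P : ℕ} {F : Fam m J}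
    {A : F.Ω → Prop} (h : Cha θ D l k K a w P J F A) (hD : D ≤ K') (hK' : 1 ≤ K')
    (he : lipE θ K w J ≤ lipE θ' K' w J) : Cht θ' l k K' a w P J F A := by
  obtain ⟨a₀, w₀, g, h1, h2, h3, h4, h5, G, H, h⟩ := h
  refine ⟨a₀, w₀, g, h1, h2, h3, h4, h5, G, H, h.mono le_rfl (fun i => ?_) le_rfl he⟩
  unfold dg1
  split_ifs
  · exact hK'
  · exact hD

/-! ### The system -/

/-- **The system of the labels of degree one**: the charts are a rational number `θ`, a degree `D`, a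
list and a target. -/
noncomputable def affsys (m : ℕ) : LSys m where
  ι := (ℚ × ℕ) × (List (Fin m) × Fin m)
  T i := Cha (i.1.1 : ℝ) i.1.2 i.2.1 i.2.2
  her i K a w P J F := Cha.her _ i.1.2 i.2.1 i.2.2 K a w P J F
  anti h := Cha.anti h
  mono hK ha hw _ _ h := Cha.mono hK ha hw h

instance : Countable (affsys m).ι :=
  inferInstanceAs (Countable ((ℚ × ℕ) × (List (Fin m) × Fin m)))

theorem slo_affsys (S : PCl m) : Slo (affsys m) S := by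
  intro i K
  refine ⟨K, fun w₀ hw₀ η hη => ⟨1, one_pos, 0, fun J _ F A _ a w v P Q _ _ _ _ hQ hT =>
    ⟨A, fun _ h => h, ?_, ?_⟩⟩⟩
  · have h1 : Real.exp (-(η * J)) ≤ 1 := by
      rw [Real.exp_le_one_iff]
      have : 0 ≤ η * (J : ℝ) := by positivity
      linarith
    calc _ ≤ 1 * Pe F.p A := mul_le_mul_of_nonneg_right h1 (Pe_nonneg F.isLaw A)
      _ = _ := one_mul _
  · have h1 : Q ≤ P + v := by
      have : (Q : ℝ) ≤ ((P + v : ℕ) : ℝ) := by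
        push_cast
        have : 0 ≤ η * (J : ℝ) := by positivity
        linarith
      exact_mod_cast this
    exact Cha.anti h1 (Cha.slope hT)

theorem tri_affsys (S : PCl m) : Tri (affsys m) S := by
  intro i
  refine ⟨0, fun η hη => ⟨1, one_pos, ?_⟩⟩
  obtain ⟨J₁, hJ₁⟩ := exists_nat_ge (1 / η)
  refine ⟨J₁, fun J hJ F A _ w P hw hP => ⟨A, fun _ h => h, ?_, ?_⟩⟩
  · have h1 : Real.exp (-(η * J)) ≤ 1 := by
      rw [Real.exp_le_one_iff]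
      have : 0 ≤ η * (J : ℝ) := by positivity
      linarith
    calc _ ≤ 1 * Pe F.p A := mul_le_mul_of_nonneg_right h1 (Pe_nonneg F.isLaw A)
      _ = _ := one_mul _
  · have hJ' : (J₁ : ℝ) ≤ J := by exact_mod_cast hJ
    have e1 : 1 / η ≤ J := hJ₁.trans hJ'
    rw [div_le_iff₀ hη] at e1
    have e2 : P + 1 ≤ w := by
      have : ((P + 1 : ℕ) : ℝ) ≤ w := by
        push_cast
        linarith
      exact_mod_cast this
    have e3 : P ≤ J := by omega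
    refine ⟨w, w, fun _ => P, le_rfl, le_rfl, le_rfl, le_rfl, fun _ _ => e3, ?_⟩
    exact chN_trivial F _ _ _ w _ e2 hw A

/-- **The thresholds** are numbers of a subclass. No property of the class is used. -/
theorem thr_affsys {S : PCl m} (hS : S.Ne) :
    ∃ (S' : PCl m) (P : (ℚ × ℕ) × (List (Fin m) × Fin m) → ℝ → ℝ → ℝ), S'.Ne ∧
      (∀ (τ : ℝ) (J : ℕ) (F : Fam m J) (A : F.Ω → Prop), S'.St τ J F A → S.St τ J F A) ∧
      ThrOf (affsys m) S' P :=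
  Pool.LBT.thr (affsys m) S hS (slo_affsys S) (tri_affsys S)

/-- The thresholds of degree one along a chain. -/
def alt (Pa : (ℚ × ℕ) × (List (Fin m) × Fin m) → ℝ → ℝ → ℝ) (θ : ℚ) (D : ℕ) (c : ℕ → Fin m)
    (i : ℕ) : ℝ → ℝ → ℝ := Pa ((θ, D), ((List.range i).map c, c i))

section thr

variable {S : PCl m} {Pa : (ℚ × ℕ) × (List (Fin m) × Fin m) → ℝ → ℝ → ℝ}

/-- **The threshold of degree one is at most the threshold**, at all smaller points. -/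
theorem alt_le {θ' : ℝ} {P : List (Fin m) × Fin m → ℝ → ℝ → ℝ} (hS : S.Ne)
    (hPa : ThrOf (affsys m) S Pa) (hP : ThrOf (chsys m θ') S P) {θ : ℚ} (D : ℕ)
    (hθ : |(θ : ℝ)| ≤ |θ'|) (c : ℕ → Fin m) (i : ℕ) {a w : ℝ} {a' w' : ℚ} (hw : 0 < w)
    (hwa : w ≤ a) (ha : a ≤ a') (hww : w ≤ w') (hwa' : w' ≤ a') (ha' : a' ≤ 1) :
    alt Pa θ D c i a w ≤ bet P c i a' w' := by
  refine Pool.LBT.thr_le' hS hPa hP (i := ((θ, D), ((List.range i).map c, c i)))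
    (i' := ((List.range i).map c, c i)) (fun K => ⟨max K (max D 1), ?_⟩) hw hwa ha hww hwa' ha'
  intro a w Q J F A h
  refine Cha.cht (K := K) h ((le_max_left _ _).trans (le_max_right _ _))
    ((le_max_right _ _).trans (le_max_right _ _)) ?_
  refine le_trans (lipE_mono (le_max_left K (max D 1)) le_rfl) ?_
  unfold lipE
  refine Nat.floor_le_floor ?_
  have := mul_le_mul_of_nonneg_right hθ (Nat.cast_nonneg (α := ℝ) w)
  linarith

/-- **No better label of degree one**, uniformly. -/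
theorem no_aff (hPa : ThrOf (affsys m) S Pa) (θ : ℚ) (D : ℕ) (c : ℕ → Fin m) (i : ℕ) (a w : ℚ)
    (e h : ℝ) (hw : 0 ≤ w) (hwa : w ≤ a) (ha : a ≤ 1) (he : e < θ * w) (hh : 0 < h)
    (h1 : alt Pa θ D c i a w + h ≤ 1) :
    Bas S (fun J F A => ∀ (a₀ w₀ e₀ : ℕ) (g : ℕ → ℕ), w₀ ≤ a₀ → a₀ ≤ ⌊(a : ℝ) * J⌋₊ →
      w₀ ≤ ⌊(w : ℝ) * J⌋₊ → e₀ ≤ ⌊e * J⌋₊ → (∀ l ≤ i, g l ≤ J) →
      ⌊(alt Pa θ D c i a w + h) * J⌋₊ + a₀ ≤ g i + ⌊(a : ℝ) * J⌋₊ →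
      ¬ ChN F c (i + 1) (dg1 D i) a₀ w₀ e₀ g A) := by
  obtain ⟨K₁, J₁, hK₁⟩ := le_lipE hw he
  refine Bas.mono J₁ (hPa.no ((θ, D), ((List.range i).map c, c i)) K₁ a w h hw hwa ha hh h1) ?_
  intro J hJ F A hn a₀ w₀ e₀ g k1 k2 k3 k4 k5 k6 k7
  refine hn ?_
  exact Cha.of_chN k7 k1 k2 k3 k6 (k4.trans (hK₁ K₁ le_rfl J hJ)) k5

/-- **The labels of the threshold.** -/
theorem att_aff (hPa : ThrOf (affsys m) S Pa) (θ : ℚ) (D : ℕ) (c : ℕ → Fin m) (i : ℕ) {x h : ℝ}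
    (hx : 0 < x) (hx1 : x ≤ 1) (hθ : 0 ≤ θ) (hh : 0 < h) (hh1 : h < alt Pa θ D c i x x) :
    Bas S (fun J F A => ∃ (a₀ w₀ e₀ : ℕ) (g : ℕ → ℕ), w₀ ≤ a₀ ∧ a₀ ≤ ⌊x * J⌋₊ ∧
      e₀ ≤ ⌊(θ * x : ℝ) * J⌋₊ ∧ ⌊(alt Pa θ D c i x x - h) * J⌋₊ + a₀ ≤ g i + ⌊x * J⌋₊ ∧
      (∀ j ≤ i, g j ≤ J) ∧ ChN F c (i + 1) (dg1 D i) a₀ w₀ e₀ g A) := by
  obtain ⟨K, hK⟩ := hPa.att ((θ, D), ((List.range i).map c, c i)) x x h hx le_rfl hx1 hh hh1
  refine Bas.mono 0 hK ?_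
  intro J _ F A hT
  obtain ⟨a₀, w₀, g, k1, k2, k3, k4, k5, k6⟩ := cha_chN hT
  refine ⟨a₀, w₀, _, g, k1, k2, ?_, k4, k5, k6⟩
  unfold lipE
  refine Nat.floor_le_floor ?_
  have hθR : (0 : ℝ) ≤ θ := by exact_mod_cast hθ
  rw [abs_of_nonneg hθR]
  have hJ0 : (0 : ℝ) ≤ J := Nat.cast_nonneg J
  have h3 : (⌊x * J⌋₊ : ℝ) ≤ x * J := Nat.floor_le (by positivity)
  have h4 : 0 ≤ (J : ℝ) / (K + 1) := by positivity
  have h5 : (θ : ℝ) * ⌊x * J⌋₊ ≤ θ * (x * J) := mul_le_mul_of_nonneg_left h3 hθR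
  linarith

/-- **The radius of the labels of the threshold** is near the radius of the point, if the threshold of
all charts has slope more than one. -/
theorem aff_lab {θ' : ℝ} {P : List (Fin m) × Fin m → ℝ → ℝ → ℝ}
    (hPa : ThrOf (affsys m) S Pa) (hP : ThrOf (chsys m θ') S P) {θ : ℚ} (hθ : 0 ≤ θ) (D : ℕ)
    (c : ℕ → Fin m) (i : ℕ) {x h : ℝ} {y : ℚ} (hy : 0 ≤ y) (hyx : y < x) (hx1 : x ≤ 1)
    (hθy : (θ : ℝ) * x < θ' * y) (hh : 0 < h) (hh1 : h < alt Pa θ D c i x x)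
    (hs : bet P c i y y + (x - y) + 2 * h < alt Pa θ D c i x x) (h1 : bet P c i y y + h ≤ 1) :
    Bas S (fun J F A => ∃ (a₀ w₀ e₀ : ℕ) (g : ℕ → ℕ), w₀ ≤ a₀ ∧ a₀ ≤ ⌊x * J⌋₊ ∧
      ⌊(y : ℝ) * J⌋₊ < a₀ ∧ e₀ ≤ ⌊(θ * x : ℝ) * J⌋₊ ∧
      ⌊(alt Pa θ D c i x x - h) * J⌋₊ + a₀ ≤ g i + ⌊x * J⌋₊ ∧
      (∀ j ≤ i, g j ≤ J) ∧ ChN F c (i + 1) (dg1 D i) a₀ w₀ e₀ g A) := by
  have hyR : (0 : ℝ) ≤ y := by exact_mod_cast hy
  have hx0 : 0 < x := hyR.trans_lt hyx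
  have hy1 : y ≤ 1 := by
    have : (y : ℝ) ≤ 1 := hyx.le.trans hx1
    exact_mod_cast this
  obtain ⟨J₁, hJ₁⟩ := big (2 : ℝ) (show 0 < alt Pa θ D c i x x - (bet P c i y y + (x - y) + 2 * h)
    by linarith)
  refine Bas.mono J₁ ((att_aff hPa θ D c i hx0 hx1 hθ hh hh1).and
    (no_unif hP c i (dg1 D i) y y (θ * x) h hy le_rfl hy1 hθy hh h1)) ?_
  rintro J hJ F A ⟨⟨a₀, w₀, e₀, g, k1, k2, k3, k4, k5, k6⟩, hn⟩
  refine ⟨a₀, w₀, e₀, g, k1, k2, ?_, k3, k4, k5, k6⟩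
  by_contra hcon
  push Not at hcon
  refine hn a₀ w₀ e₀ g k1 hcon (k1.trans hcon) k3 k5 ?_ k6
  have j1 := hJ₁ J hJ
  have hJ0 : (0 : ℝ) ≤ J := Nat.cast_nonneg J
  have hb0 : (y : ℝ) ≤ bet P c i y y := hP.low ((List.range i).map c, c i) y y hyR le_rfl
    (by exact_mod_cast hy1)
  have f1 := Nat.floor_le (show 0 ≤ (bet P c i y y + h) * (J : ℝ) from
    mul_nonneg (by linarith) hJ0)
  have f2 := Nat.lt_floor_add_one ((alt Pa θ D c i x x - h) * (J : ℝ))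
  have f3 := Nat.floor_le (show 0 ≤ x * (J : ℝ) by positivity)
  have f4 := Nat.lt_floor_add_one ((y : ℝ) * (J : ℝ))
  have e1 : (alt Pa θ D c i x x - (bet P c i y y + (x - y) + 2 * h)) * (J : ℝ) =
      (alt Pa θ D c i x x - h) * J - (bet P c i y y + h) * J - x * J + y * J := by ring
  rw [e1] at j1
  have k4' : (⌊(alt Pa θ D c i x x - h) * J⌋₊ : ℝ) + a₀ ≤ g i + ⌊x * J⌋₊ := by exact_mod_cast k4
  have : (⌊(bet P c i y y + h) * J⌋₊ : ℝ) + a₀ ≤ g i + ⌊(y : ℝ) * J⌋₊ := by linarith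
  exact_mod_cast this

end thr

end Pool.AFF60
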