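import Pool.Agent.H76.CNC.Sta
import Pool.Agent.H28.CNC.Cor

/-!
# A chart with small second derivatives is a chart of degree one

`tl1`: the Taylor polynomial of degree one. `clo_fn`: closed data as functions of the codes.
`aff_no`: if the second derivatives of the closed chart of `u = c 2` are small at the own points, then
its Taylor polynomial of degree one at the centre is a chart of `u` over the same lower charts.
-/

set_option autoImplicit false

namespace Pool.AFF60

open Finset Real MvPolynomial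
open Pool.Agent.H49.Ent Pool.Agent.H32.Dense Pool.STK Pool.KA Pool.KSAT Pool.K2S Pool.PB Pool.S6C
open Pool.GEN Pool.CHT Pool.CHX Pool.ISO Pool.D2R
open Pool.CUB46 (h3)
open Pool.AFF82 (AfN afc afp afs afo pul psh eval_pul pul_deg pul_afc afc_afp eval_psh eval_afo
  psh_deg psh_dep pd_bd)
open Pool.CNC76 Pool.CNC28

/-! ### The Taylor polynomial -/

/-- **The Taylor polynomial** of degree one. -/
noncomputable def tl1 (x : Fin 3 → ℝ) (P : MvPolynomial (Fin 3) ℝ) : MvPolynomial (Fin 3) ℝ :=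
  C (eval x P) + ∑ i, C (eval x (pderiv i P)) * (X i - C (x i))

theorem eval_tl1 (x b : Fin 3 → ℝ) (P : MvPolynomial (Fin 3) ℝ) :
    eval b (tl1 x P) = eval x P + ∑ i, eval x (pderiv i P) * (b i - x i) := by
  unfold tl1
  rw [map_add, eval_C, map_sum]
  congr 1
  refine Finset.sum_congr rfl fun i _ => ?_
  rw [map_mul, map_sub, eval_C, eval_X, eval_C]

theorem deg_tl1 (x : Fin 3 → ℝ) (P : MvPolynomial (Fin 3) ℝ) : (tl1 x P).totalDegree ≤ 1 := by
  unfold tl1
  refine (totalDegree_add _ _).trans (max_le ?_ ?_)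
  · rw [totalDegree_C]
    exact Nat.zero_le _
  · refine (totalDegree_finsetSum _ _).trans (Finset.sup_le fun i _ => ?_)
    refine (totalDegree_mul _ _).trans ?_
    rw [totalDegree_C, zero_add]
    refine (totalDegree_sub _ _).trans (max_le ?_ ?_)
    · rw [totalDegree_X]
    · rw [totalDegree_C]
      exact Nat.zero_le _

theorem pd_tl1 (x b : Fin 3 → ℝ) (P : MvPolynomial (Fin 3) ℝ) (i : Fin 3) :
    eval b (pderiv i (tl1 x P)) = eval x (pderiv i P) := by
  classical
  unfold tl1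
  rw [map_add, pderiv_C, zero_add, map_sum, map_sum, Finset.sum_eq_single i]
  · rw [pderiv_C_mul, map_sub, pderiv_X_self, pderiv_C, sub_zero, mul_one, eval_C]
  · intro j _ hj
    rw [pderiv_C_mul, map_sub, pderiv_X_of_ne hj, pderiv_C, sub_zero, mul_zero, map_zero]
  · intro h
    exact absurd (Finset.mem_univ i) h

/-- The derivatives of the coordinates are constant. -/
theorem pd_afo {m : ℕ} {c : ℕ → Fin m} {N : AfN} {o s0 s1 : ℕ} (j : Option (Fin m)) (k : Fin 3)
    (b b' : Option (Fin m) → ℝ) :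
    eval b (pderiv j (afo c N o s0 s1 k)) = eval b' (pderiv j (afo c N o s0 s1 k)) := by
  classical
  have hX : ∀ (l : Option (Fin m)) (v : Option (Fin m) → ℝ),
      eval v (pderiv j (X l : MvPolynomial (Option (Fin m)) ℝ)) = if l = j then 1 else 0 := by
    intro l v
    by_cases h : l = j
    · subst h
      rw [if_pos rfl, pderiv_X_self, map_one]
    · rw [if_neg h, pderiv_X_of_ne h, map_zero]
  unfold afo
  fin_cases k
  · show eval b (pderiv j (C (2 ^ o) * (X none - C N.t))) =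
      eval b' (pderiv j (C (2 ^ o) * (X none - C N.t)))
    simp only [pderiv_C_mul, map_sub, pderiv_C, sub_zero, map_mul, eval_C, hX]
  · show eval b (pderiv j (C (2 ^ s0) * (X (some (c 0)) - C N.x0 - C N.a0 * (X none - C N.t)))) =
      eval b' (pderiv j (C (2 ^ s0) * (X (some (c 0)) - C N.x0 - C N.a0 * (X none - C N.t))))
    simp only [pderiv_C_mul, map_sub, pderiv_C, sub_zero, map_mul, eval_C, hX]
  · show eval b (pderiv j (C (2 ^ s1) * (X (some (c 1)) - C N.x1 - C N.a1 * (X none - C N.t) -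
        C N.a2 * (X (some (c 0)) - C N.x0 - C N.a0 * (X none - C N.t))))) =
      eval b' (pderiv j (C (2 ^ s1) * (X (some (c 1)) - C N.x1 - C N.a1 * (X none - C N.t) -
        C N.a2 * (X (some (c 0)) - C N.x0 - C N.a0 * (X none - C N.t)))))
    simp only [pderiv_C_mul, map_sub, pderiv_C, sub_zero, map_mul, eval_C, hX]

/-- The chart of the chart. -/
theorem psh_pul {m : ℕ} {c : ℕ → Fin m} {N : AfN} {o s0 s1 : ℕ} (hc : Set.InjOn c (Set.Iio 2))
    {Q : MvPolynomial (Option (Fin m)) ℝ} (hQ : DepC c 2 Q) (U : MvPolynomial (Fin 3) ℝ) :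
    psh c N o s0 s1 (pul c N o s0 s1 U Q) = Q :=
  MvPolynomial.funext fun b => by rw [eval_psh, pul_afc hc hQ]

/-- **The gradient** of the Taylor polynomial. -/
theorem pd_psh_tl1 {m : ℕ} {c : ℕ → Fin m} {N : AfN} {o s0 s1 : ℕ}
    (hc : Set.InjOn c (Set.Iio 2)) {Q : MvPolynomial (Option (Fin m)) ℝ} (hQ : DepC c 2 Q)
    (U : MvPolynomial (Fin 3) ℝ) (x : Fin 3 → ℝ) (u : ℝ) (j : Option (Fin m))
    (b : Option (Fin m) → ℝ) :
    eval b (pderiv j (psh c N o s0 s1 (tl1 x (pul c N o s0 s1 U Q)))) =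
      eval (afp c N o s0 s1 u x) (pderiv j Q) := by
  have e1 : ∀ (P : MvPolynomial (Fin 3) ℝ) (v : Option (Fin m) → ℝ),
      eval v (pderiv j (psh c N o s0 s1 P)) =
        ∑ k, eval (afc c N o s0 s1 v) (pderiv k P) * eval v (pderiv j (afo c N o s0 s1 k)) := by
    intro P v
    unfold psh
    rw [pd_bd]
    have e : (fun k => eval v (afo c N o s0 s1 k)) = afc c N o s0 s1 v :=
      funext fun k => eval_afo v k
    rw [e]
  have e2 := e1 (pul c N o s0 s1 U Q) (afp c N o s0 s1 u x)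
  rw [psh_pul hc hQ, afc_afp hc] at e2
  rw [e1, e2]
  refine Finset.sum_congr rfl fun k _ => ?_
  rw [pd_tl1, pd_afo j k b (afp c N o s0 s1 u x)]

/-! ### Closed data as functions of the codes -/

/-- **Closed data** are functions of the code of the point and of the code of the line. -/
theorem clo_fn {Ω P S T : Type} {B : Ω → Prop} {pt : Ω → P} {sl : Ω → S} {f : Ω → T}
    (h : Clo B pt sl f) {Q : T → Prop} (q₀ : T) (hq₀ : Q q₀) (hf : ∀ ω, B ω → Q (f ω)) :
    ∃ (fp : P → T) (fs : S → T), (∀ y, Q (fp y)) ∧ (∀ s, Q (fs s)) ∧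
      (∀ ω, B ω → fp (pt ω) = f ω) ∧ ∀ ω, B ω → fs (sl ω) = f ω := by
  classical
  refine ⟨fun y => if hy : ∃ ω, B ω ∧ pt ω = y then f hy.choose else q₀,
    fun s => if hs : ∃ ω, B ω ∧ sl ω = s then f hs.choose else q₀, fun y => ?_, fun s => ?_,
    fun ω hω => ?_, fun ω hω => ?_⟩
  · show Q (if hy : ∃ ω, B ω ∧ pt ω = y then f hy.choose else q₀)
    split_ifs with hy
    · exact hf _ hy.choose_spec.1
    · exact hq₀
  · show Q (if hs : ∃ ω, B ω ∧ sl ω = s then f hs.choose else q₀)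
    split_ifs with hs
    · exact hf _ hs.choose_spec.1
    · exact hq₀
  · have hy : ∃ ω', B ω' ∧ pt ω' = pt ω := ⟨ω, hω, rfl⟩
    show (if hy : ∃ ω', B ω' ∧ pt ω' = pt ω then f hy.choose else q₀) = f ω
    rw [dif_pos hy]
    exact h.1 _ _ hy.choose_spec.1 hω hy.choose_spec.2
  · have hs : ∃ ω', B ω' ∧ sl ω' = sl ω := ⟨ω, hω, rfl⟩
    show (if hs : ∃ ω', B ω' ∧ sl ω' = sl ω then f hs.choose else q₀) = f ω
    rw [dif_pos hs]
    exact h.2 _ _ hs.choose_spec.1 hω hs.choose_spec.2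

/-- The natural exponents with a smaller last side. -/
theorem nlp_last {g g' : ℕ → ℕ} {i l : ℕ} (hg : ∀ j < i, g' j = g j) (hi : g' i ≤ g i) :
    nlp g l i ≤ nlp g' l i := by
  unfold nlp
  rcases Nat.eq_zero_or_pos ((Finset.Icc l i).sup g - g i) with h0 | h0
  · rw [h0]
    exact Nat.zero_le _
  have h1 : (Finset.Icc l i).sup g ≤ max (g i) ((Finset.Icc l i).sup g') := by
    refine Finset.sup_le fun j hj => ?_
    rcases (Finset.mem_Icc.1 hj).2.lt_or_eq with h2 | h2
    · refine le_trans ?_ (le_max_right _ _)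
      rw [← hg j h2]
      exact Finset.le_sup (f := g') hj
    · rw [h2]
      exact le_max_left _ _
  rcases le_total ((Finset.Icc l i).sup g') (g i) with h2 | h2
  · rw [max_eq_left h2] at h1
    omega
  · rw [max_eq_right h2] at h1
    omega

/-! ### The chart of degree one -/

/-- **A chart with small second derivatives** is a chart of degree one, over the same lower
charts. -/
theorem aff_no (K : ℕ) (hK : 1 ≤ K) : ∃ C : ℝ, 1 ≤ C ∧ ∀ {m J : ℕ} {F : Fam m J}
    {c : ℕ → Fin m} {B B' : F.Ω → Prop} {n k e D h Q L : ℕ} {w : ℕ → ℕ} {g : ℕ → ℕ → ℕ}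
    {G : ℕ → PtT F → ℕ → MvPolynomial (Option (Fin m)) ℝ}
    {H : LnT F → ℕ → MvPolynomial (Option (Fin m)) ℝ} {N : F.Ω → AfN} {o s0 s1 sm : ℕ}
    {ctr : ℕ → F.Ω → Fin 3 → ℝ} {ρ : ℕ → ℝ} {S' : Type} {sd : F.Ω → S'}
    {Yc X : F.Ω → Fin 3 → ℝ} {κ η c' T Λ : ℝ}, Set.InjOn c (Set.Iio 3) →
    Frm F c B n w g G N o s0 s1 sm ctr ρ → k ≤ n →
    ChOK F c 3 (fun _ => K) (w k) (w k) e (g k) B (G k) H → Clsd F 3 (w k) B (G k) H →
    Bll F.p B (ptr F J) (slam F (w k)) sd
      (unt (fun ω => afc c (N ω) o s0 s1 (bt F ω)) (ctr k) (ρ k)) Yc X D h Q κ η c' T → K ≤ D →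
    (∀ ω, B' ω → B ω) → 1 ≤ Λ → C * 2 ^ h * Λ ≤ 2 ^ L → L ≤ g k 2 →
    (∀ ω, B' ω → ∀ i j, |h3 (UU F c G N o s0 s1 k ω) (afc c (N ω) o s0 s1 (bt F ω)) i j| ≤
      Λ / 2 ^ g k 2 / ρ k ^ 2) →
    ∃ B'' : F.Ω → Prop, (∀ ω, B'' ω → B' ω) ∧ Pe F.p B' ≤ Pe F.p B'' + κ * Pe F.p B ∧
      ChN F c 3 (fun j => if j = 2 then 1 else K) (w k) (w k) e
        (fun j => if j = 2 then g k 2 - L else g k j) B'' := by
  classical
  obtain ⟨C₁, hC₁, hrel⟩ := rel_max K hK
  refine ⟨4 * C₁, by linarith, ?_⟩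
  intro m J F c B B' n k e D h Q L w g G H N o s0 s1 sm ctr ρ S' sd Yc X κ η c' T Λ hc V hk hOK
    hcl hb hKD hB hΛ hL hLg hh
  have hc2 : Set.InjOn c (Set.Iio 2) := hc.mono fun x hx => by
    rw [Set.mem_Iio] at hx ⊢
    omega
  obtain ⟨Y, hY⟩ : ∃ Y : F.Ω → Fin 3 → ℝ, Y = fun ω => afc c (N ω) o s0 s1 (bt F ω) := ⟨_, rfl⟩
  rw [← hY] at hb
  have hYe : ∀ ω, afc c (N ω) o s0 s1 (bt F ω) = Y ω := fun ω => by rw [hY]
  simp only [hYe] at hh
  obtain ⟨hρ, -⟩ := V.ρ0 k hk
  -- closed data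
  have hGc : Clo B (ptr F J) (slam F (w k)) (fun ω => G k (ptr F J ω) 2) := by
    refine ⟨fun ω ω' _ _ e => ?_, fun ω ω' h1 h2 e => ?_⟩
    · show G k (ptr F J ω) 2 = G k (ptr F J ω') 2
      rw [e]
    show G k (ptr F J ω) 2 = G k (ptr F J ω') 2
    rw [hcl ω h1 2 (by norm_num), hcl ω' h2 2 (by norm_num), e]
  have hUc : Clo B (ptr F J) (slam F (w k)) (UU F c G N o s0 s1 k) :=
    (V.Nc k hk).map2 hGc fun N Q => pul c N o s0 s1 0 Q
  have hUd : ∀ ω, (UU F c G N o s0 s1 k ω).totalDegree ≤ K := fun ω => by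
    have h1 := pul_deg (c := c) (N := N ω) (o := o) (s0 := s0) (s1 := s1)
      (U := (0 : MvPolynomial (Fin 3) ℝ)) (K := 1) (by rw [totalDegree_zero]; exact Nat.zero_le _)
      le_rfl (hOK.degG (ptr F J ω) 2)
    rwa [mul_one] at h1
  -- the second derivatives on the cube
  obtain ⟨B'', k1, k2, k3⟩ := hrel hb hKD (B' := B') (ι := Fin 3 × Fin 3)
    (fun p ω => dil (ctr k ω) (ρ k) (pderiv p.1 (pderiv p.2 (UU F c G N o s0 s1 k ω))))
    (fun _ => Λ / 2 ^ g k 2 / ρ k ^ 2) hB
    (fun p => ((V.cc k hk).map2 hUc fun a U => dil a (ρ k) (pderiv p.1 (pderiv p.2 U))).sub hB)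
    (fun p ω _ => deg_dil (totalDegree_pdσ (totalDegree_pdσ (hUd ω) p.2) p.1) _ _)
    (fun ω hω p => by
      rw [Pool.CNC76.eval_dil]
      have e1 : (fun i => ctr k ω i + ρ k * unt Y (ctr k) (ρ k) ω i) = Y ω := by
        funext i
        unfold unt
        field_simp
        ring
      rw [e1]
      exact hh ω hω p.1 p.2)
  refine ⟨B'', k1, k2, ?_⟩
  have hhes : ∀ ω, B'' ω → ∀ b, Cu (ctr k ω) (ρ k) b → ∀ i j,
      |h3 (UU F c G N o s0 s1 k ω) b i j| ≤ C₁ * 2 ^ h * (Λ / 2 ^ g k 2 / ρ k ^ 2) := by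
    intro ω hω b hb i j
    obtain ⟨h1, h2⟩ := cu_unit hρ hb
    have h3 := k3 ω hω (i, j) _ h1
    rw [Pool.CNC76.eval_dil, h2] at h3
    exact h3
  have hBB : ∀ ω, B'' ω → B ω := fun ω hω => hB ω (k1 ω hω)
  -- the new chart
  obtain ⟨Φ, hΦ⟩ : ∃ Φ : F.Ω → MvPolynomial (Option (Fin m)) ℝ, Φ = fun ω =>
    psh c (N ω) o s0 s1 (tl1 (ctr k ω) (UU F c G N o s0 s1 k ω)) := ⟨_, rfl⟩
  have hΦc : Clo B'' (ptr F J) (slam F (w k)) Φ := by
    have h1 := (V.Nc k hk).map2 ((V.cc k hk).map2 hUc fun a U => (a, U))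
      fun N x => psh c N o s0 s1 (tl1 x.1 x.2)
    rw [hΦ]
    exact h1.sub hBB
  obtain ⟨fp, fs, p1, p2, p3, p4⟩ := clo_fn hΦc (Q := fun Q => Q.totalDegree ≤ 1 ∧ DepC c 2 Q)
    (q₀ := 0) ⟨by rw [totalDegree_zero]; exact Nat.zero_le _, fun b b' _ _ => by
      rw [map_zero, map_zero]⟩ (fun ω _ => by
      rw [hΦ]
      exact ⟨psh_deg (deg_tl1 _ _), psh_dep _⟩)
  obtain ⟨G₁, hG₁⟩ : ∃ G₁ : PtT F → ℕ → MvPolynomial (Option (Fin m)) ℝ,
    G₁ = fun y i => if i = 2 then fp y else G k y i := ⟨_, rfl⟩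
  obtain ⟨H₁, hH₁⟩ : ∃ H₁ : LnT F → ℕ → MvPolynomial (Option (Fin m)) ℝ,
    H₁ = fun s i => if i = 2 then fs s else H s i := ⟨_, rfl⟩
  obtain ⟨g', hg'⟩ : ∃ g' : ℕ → ℕ, g' = fun j => if j = 2 then g k 2 - L else g k j := ⟨_, rfl⟩
  have g2 : ∀ y, G₁ y 2 = fp y := fun y => by rw [hG₁]; exact if_pos rfl
  have gl : ∀ y i, i ≠ 2 → G₁ y i = G k y i := fun y i hi => by rw [hG₁]; exact if_neg hi
  have h2' : ∀ s, H₁ s 2 = fs s := fun s => by rw [hH₁]; exact if_pos rfl
  have hl' : ∀ s i, i ≠ 2 → H₁ s i = H s i := fun s i hi => by rw [hH₁]; exact if_neg hi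
  have g'2 : g' 2 = g k 2 - L := by rw [hg']; exact if_pos rfl
  have g'l : ∀ i, i ≠ 2 → g' i = g k i := fun i hi => by rw [hg']; exact if_neg hi
  have hnb : ∀ {y : PtT F} {t : ℝ} {i : ℕ} {b : Option (Fin m) → ℝ}, i ≤ 2 →
      NBx c (G₁ y) g' (w k) t i b → NBx c (G k y) (g k) (w k) t i b := by
    intro y t i b hi hb
    refine ⟨hb.1, fun l hl => ?_⟩
    have h1 := hb.2 l hl
    rw [gl _ _ (by omega), g'l _ (by omega)] at h1
    exact h1
  rw [← hg']
  refine ⟨G₁, H₁, ?_⟩
  have hpw : (2 : ℝ) ^ L / 2 ^ g k 2 = 1 / 2 ^ (g k 2 - L) := by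
    rw [div_eq_div_iff (by positivity) (by positivity), ← pow_add, one_mul]
    congr 1
    omega
  exact
    { degG := fun y i => by
        by_cases hi : i = 2
        · rw [hi, g2, if_pos rfl]
          exact (p1 y).1
        · rw [gl y i hi, if_neg hi]
          exact hOK.degG y i
      degH := fun s i => by
        by_cases hi : i = 2
        · rw [hi, h2', if_pos rfl]
          exact (p2 s).1
        · rw [hl' s i hi, if_neg hi]
          exact hOK.degH s i
      depG := fun y i => by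
        by_cases hi : i = 2
        · rw [hi, g2]
          exact (p1 y).2
        · rw [gl y i hi]
          exact hOK.depG y i
      depH := fun s i => by
        by_cases hi : i = 2
        · rw [hi, h2']
          exact (p2 s).2
        · rw [hl' s i hi]
          exact hOK.depH s i
      pos := fun ω hω i hi => by
        rcases (show i < 2 ∨ i = 2 by omega) with h2 | h2
        · rw [gl _ i (by omega), g'l i (by omega)]
          exact hOK.pos ω (hBB ω hω) i hi
        · subst h2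
          rw [g2, p3 ω hω, g'2, ← hpw]
          have hΦe : eval (bt F ω) (Φ ω) = eval (Y ω) (tl1 (ctr k ω) (UU F c G N o s0 s1 k ω)) := by
            rw [hΦ]
            show eval (bt F ω) (psh c (N ω) o s0 s1 _) = _
            rw [eval_psh, hYe]
          have hUe : eval (Y ω) (UU F c G N o s0 s1 k ω) = eval (bt F ω) (G k (ptr F J ω) 2) := by
            rw [← hYe]
            exact pul_afc hc2 (hOK.depG _ 2) 0 (bt F ω)
          have hy : ∀ i, |Y ω i - ctr k ω i| ≤ ρ k / 2 := fun i => by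
            have h1 := hb.y1 ω (hBB ω hω) i
            unfold unt at h1
            rw [abs_div, abs_of_pos hρ, div_le_iff₀ hρ] at h1
            linarith
          have h3 := tay2 (F := UU F c G N o s0 s1 k ω) (x := ctr k ω) (b := Y ω)
            (A := C₁ * 2 ^ h * (Λ / 2 ^ g k 2 / ρ k ^ 2)) (δ := ρ k / 2) (fun t ht i j => by
              refine hhes ω hω _ (fun i => ?_) i j
              show |ctr k ω i + (Y ω i - ctr k ω i) * t - ctr k ω i| ≤ _
              rw [add_sub_cancel_left, abs_mul, abs_of_nonneg ht.1]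
              have h4 := hy i
              have h5 : |Y ω i - ctr k ω i| * t ≤ |Y ω i - ctr k ω i| * 1 :=
                mul_le_mul_of_nonneg_left ht.2 (abs_nonneg _)
              linarith) hy
          have e1 : eval (Y ω) (tl1 (ctr k ω) (UU F c G N o s0 s1 k ω)) =
              eval (ctr k ω) (UU F c G N o s0 s1 k ω) +
              ∑ i, eval (ctr k ω) (pderiv i (UU F c G N o s0 s1 k ω)) *
                (Y ω i - ctr k ω i) := eval_tl1 _ _ _
          have h4 := hOK.pos ω (hBB ω hω) 2 (by norm_num)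
          rw [hΦe, e1]
          rw [hUe] at h3
          obtain ⟨x, hx⟩ : ∃ x, x = eval (bt F ω) (G k (ptr F J ω) 2) := ⟨_, rfl⟩
          obtain ⟨a, ha⟩ : ∃ a, a = eval (ctr k ω) (UU F c G N o s0 s1 k ω) := ⟨_, rfl⟩
          obtain ⟨s, hs⟩ : ∃ s, s = ∑ i, eval (ctr k ω) (pderiv i (UU F c G N o s0 s1 k ω)) *
                (Y ω i - ctr k ω i) := ⟨_, rfl⟩
          rw [← hx, ← ha, ← hs] at h3
          rw [← hx] at h4
          rw [← ha, ← hs]
          have e2 : F.x ω (c 2) - (a + s) = (F.x ω (c 2) - x) + (x - a - s) := by ring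
          rw [e2]
          refine (abs_add_le _ _).trans ((add_le_add h4 h3).trans ?_)
          have e3 : 1 / 2 ^ g k 2 + 9 * (C₁ * 2 ^ h * (Λ / 2 ^ g k 2 / ρ k ^ 2) * (ρ k / 2) ^ 2) =
              (1 + 9 / 4 * (C₁ * 2 ^ h * Λ)) / 2 ^ g k 2 := by
            field_simp
            ring
          rw [e3]
          refine div_le_div_of_nonneg_right (le_trans ?_ hL) (by positivity)
          have h5 : 1 ≤ C₁ * 2 ^ h * Λ :=
            one_le_mul_of_one_le_of_one_le (one_le_mul_of_one_le_of_one_le hC₁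
              (one_le_pow₀ (by norm_num))) hΛ
          linarith
      agr := fun ω hω i hi b hb => by
        rcases (show i < 2 ∨ i = 2 by omega) with h2 | h2
        · rw [gl _ i (by omega), hl' _ i (by omega), g'l i (by omega)]
          exact hOK.agr ω (hBB ω hω) i hi b (hnb (by omega) hb)
        · subst h2
          rw [g2, h2', p3 ω hω, p4 ω hω, sub_self, abs_zero]
          positivity
      lip := fun ω hω i hi b hb l hl => by
        rcases (show i < 2 ∨ i = 2 by omega) with h2 | h2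
        · rw [gl _ i (by omega), nlp_congr (g := g') (g' := g k) fun j hj => g'l j (by omega)]
          exact hOK.lip ω (hBB ω hω) i hi b (hnb (by omega) hb) l hl
        · subst h2
          rw [g2, p3 ω hω, hΦ]
          show |eval b (pderiv (some (c l)) (psh c (N ω) o s0 s1
            (tl1 (ctr k ω) (pul c (N ω) o s0 s1 0 (G k (ptr F J ω) 2)))))| ≤ _
          rw [pd_psh_tl1 hc2 (hOK.depG _ 2) 0 (ctr k ω) 0]
          refine (hOK.lip ω (hBB ω hω) 2 hi _ (V.sml k hk ω (hBB ω hω) (ctr k ω) (fun i => by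
            rw [sub_self, abs_zero]
            positivity) 0) l hl).trans ?_
          refine pow_le_pow_right₀ (by norm_num) (Nat.add_le_add_left ?_ e)
          refine nlp_last (fun j hj => g'l j (by omega)) ?_
          rw [g'2]
          exact Nat.sub_le _ _ }

end Pool.AFF60
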