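import Pool.Agent.H60.AFF.Avi
import Pool.Agent.H3.D2G.RecN

/-!
# Visible and invisible second derivatives of the chart of `u`, at a record

`vis_rec`: `aff_vis` at a window of a record, below the threshold of degree one near it. `inv_rec`:
`aff_inv` at a window of a record, at the threshold of degree one.
-/

set_option autoImplicit false

namespace Pool.AFF60

open Finset Real MvPolynomial
open Pool.Agent.H49.Ent Pool.Agent.H32.Dense Pool.STK Pool.KA Pool.KSAT Pool.K2S Pool.PB Pool.S6C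
open Pool.GEN Pool.CHT Pool.CHX Pool.ISO Pool.D2R Pool.PKG
open Pool.LBT (LSys Slo Tri ThrOf)
open Pool.LEV (Law)
open Pool.CUB46 (h3)
open Pool.AFF82 (AfN afc)
open Pool.CNC76 Pool.CNC28

/-- **Visible second derivatives at a record.** `W`: the place of the window; `x₀`, `d`: the point and
the radius of the visibility; `ℓ`: the exponent of the second derivatives. -/
theorem vis_rec (D : ℕ) (hD : 1 ≤ D) : ∃ cC : ℕ, ∀ {m : ℕ} {S : PCl m} {al : ℝ} {g₀ : ℝ → ℝ}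
    {P : List (Fin m) × Fin m → ℝ → ℝ → ℝ} {θ : ℝ}
    {P₂ : ℕ → List (Fin m) × Fin m → ℝ → ℝ → ℝ} {θ₂ Eb e₂ : ℕ → ℝ} {c : ℕ → Fin m}
    {Pt : ℝ → ℝ → ℝ} {rr : ℝ → ℝ} {h K₀ g : ℝ} {L T : ℕ → ℝ → ℝ → ℝ} {Sl : ℕ → ℝ}
    {κ : ℕ → Kg} {G : Set ℝ} {S₀ N : ℕ} {A V : ℕ → ℝ} {S₂ N' : ℕ} {V' : ℕ → ℝ} {K ε q t : ℝ}
    {Pa : (ℚ × ℕ) × (List (Fin m) × Fin m) → ℝ → ℝ → ℝ} {θa : ℚ} {x₀ d W η ℓ e₁ : ℝ},
    RecG S al g₀ P θ P₂ θ₂ Eb e₂ c Pt rr h K₀ g L T Sl κ G S₀ N A V S₂ N' V' K ε q t →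
    3 < m → ThrOf (affsys m) S Pa → 0 ≤ ε →
    (∀ y, |y - x₀| ≤ d → alt Pa θa D c 2 y y + d ≤ L 2 y y) → 0 < θa → |W| + 1 ≤ K →
    |t + W * q - x₀| < d → e₁ ≤ θa * (t + W * q) → 0 ≤ η → 0 ≤ ℓ →
    2 * ℓ + (η + 2 * ε) * q < d → ∀ K₁ K₂ : ℝ, 0 < K₁ → 0 < K₂ → Bas S (fun J F A =>
    ∀ {B B' : F.Ω → Prop} {n k e DB h Q : ℕ} {w : ℕ → ℕ} {g : ℕ → ℕ → ℕ}
      {G : ℕ → PtT F → ℕ → MvPolynomial (Option (Fin m)) ℝ}
      {H : LnT F → ℕ → MvPolynomial (Option (Fin m)) ℝ} {N : F.Ω → AfN} {o s0 s1 sm : ℕ}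
      {ctr : ℕ → F.Ω → Fin 3 → ℝ} {ρ : ℕ → ℝ} {S' : Type} {sd : F.Ω → S'}
      {Yc X : F.Ω → Fin 3 → ℝ} {κ η' c' T : ℝ}, Sub B A → Pe F.p A ≤ K₁ * Pe F.p B →
      Frm F c B n w g G N o s0 s1 sm ctr ρ → k ≤ n → w k = ⌊(t + W * q) * J⌋₊ →
      ChOK F c 3 (fun _ => D) (w k) (w k) e (g k) B (G k) H → Clsd F 3 (w k) B (G k) H →
      Bll F.p B (ptr F J) (slam F (w k)) sd
        (unt (fun ω => afc c (N ω) o s0 s1 (bt F ω)) (ctr k) (ρ k)) Yc X DB h Q κ η' c' T →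
      D ≤ DB → 4 * (κ * K₂) ≤ 1 → e ≤ ⌊e₁ * J⌋₊ → (∀ l ≤ 2, g k l ≤ J) →
      (L 2 (t + W * q) (t + W * q) - η * q) * J ≤ g k 2 → cC + h ≤ ⌊ℓ * J⌋₊ →
      (∀ ω, B' ω → B ω) → Pe F.p B ≤ K₂ * Pe F.p B' →
      ∃ B'' : F.Ω → Prop, (∀ ω, B'' ω → B' ω) ∧ Pe F.p B' ≤ 2 * Pe F.p B'' ∧
        ∀ ω, B'' ω → ∃ i j, 2 ^ ⌊ℓ * J⌋₊ / 2 ^ g k 2 / ρ k ^ 2 <
          |h3 (UU F c G N o s0 s1 k ω) (afc c (N ω) o s0 s1 (bt F ω)) i j|) := by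
  obtain ⟨C, hC, hvis⟩ := aff_vis D hD
  obtain ⟨cC, hcC⟩ := pow_unbounded_of_one_lt C (one_lt_two (α := ℝ))
  refine ⟨cC, ?_⟩
  intro m S al g₀ P θ P₂ θ₂ Eb e₂ c Pt rr h K₀ g L T Sl κ G S₀ N A V S₂ N' V' K ε q t Pa θa x₀ d W
    η ℓ e₁ Rc hm hPa hε hv hθa hWK hWx he hη hℓ hd K₁ K₂ hK₁ hK₂
  have hq := Rc.q0
  obtain ⟨o, ho⟩ : ∃ o : ℝ, o = t + W * q := ⟨_, rfl⟩
  rw [← ho] at hWx he
  have hηq : 0 ≤ (η + 2 * ε) * q := mul_nonneg (by linarith) hq.le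
  have hd0 : 0 < d := by linarith
  have hWq : |W * q| + q ≤ K * q := by
    have := mul_le_mul_of_nonneg_right hWK hq.le
    rw [abs_mul, abs_of_pos hq]
    linarith
  have hot : |o - t| + q ≤ K * q := by
    rw [ho, add_sub_cancel_left]
    exact hWq
  have hoK : |o - t| ≤ K * q := by linarith
  have ho0 : 0 < o := by
    have := (abs_le.1 hoK).1
    linarith [Rc.t0]
  obtain ⟨gap, hgap⟩ : ∃ gap : ℝ, gap = d - (2 * ℓ + (η + 2 * ε) * q) := ⟨_, rfl⟩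
  have hgap0 : 0 < gap := by rw [hgap]; linarith
  have hgapd : gap ≤ d := by rw [hgap]; linarith
  obtain ⟨s, hs⟩ : ∃ s : ℝ, s = |Sl 2| + 1 := ⟨_, rfl⟩
  have hs1 : 1 ≤ s := by rw [hs]; linarith [abs_nonneg (Sl 2)]
  obtain ⟨τ, hτ⟩ : ∃ τ : ℝ, τ = min q (min (gap / (4 * s)) (d - |o - x₀|)) := ⟨_, rfl⟩
  have hτ0 : 0 < τ := by
    rw [hτ]
    exact lt_min hq (lt_min (by positivity) (by linarith))
  have hτq : τ ≤ q := by rw [hτ]; exact min_le_left _ _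
  have hτg : τ ≤ gap / (4 * s) := by rw [hτ]; exact (min_le_right _ _).trans (min_le_left _ _)
  have hτd : τ ≤ d - |o - x₀| := by rw [hτ]; exact (min_le_right _ _).trans (min_le_right _ _)
  obtain ⟨x, hx1, hx2⟩ := exists_rat_btwn (show o < o + τ by linarith)
  have hxt : |(x : ℝ) - t| ≤ K * q := by
    have h1 : |(x : ℝ) - o| ≤ q := by
      rw [abs_of_pos (by linarith)]
      linarith
    have h2 := abs_add_le ((x : ℝ) - o) (o - t)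
    rw [sub_add_sub_cancel] at h2
    linarith
  have hxx : |(x : ℝ) - x₀| ≤ d := by
    have h1 : |(x : ℝ) - o| ≤ τ := by
      rw [abs_of_pos (by linarith)]
      linarith
    have h2 := abs_add_le ((x : ℝ) - o) (o - x₀)
    rw [sub_add_sub_cancel] at h2
    linarith
  have hx0 : (0 : ℝ) < x := by linarith
  have hx01 : (x : ℝ) ≤ 1 := by
    have := (abs_le.1 hxt).2
    linarith [Rc.t1]
  have ho1 : o ≤ 1 := by linarith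
  have hLe : L 2 = bet P c 2 := Rc.lv_lt (by omega)
  have hLx1 : L 2 x x ≤ 1 := by
    rw [hLe]
    exact Rc.thr.up _ _ _ hx0.le le_rfl hx01
  have hvx := hv x hxx
  have hvo := hv o hWx.le
  have halo : o ≤ alt Pa θa D c 2 o o := hPa.low _ o o ho0.le le_rfl ho1
  have hdLx := abs_le.1 (Rc.dL 2 (by omega) x hxt)
  have hdLo := abs_le.1 (Rc.dL 2 (by omega) o hoK)
  have hslope : L 2 x x ≤ L 2 o o + gap / 4 + 2 * (ε * q) := by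
    have h1 : Sl 2 * (x - o) ≤ gap / 4 := by
      have h2 : Sl 2 ≤ s := by rw [hs]; linarith [le_abs_self (Sl 2)]
      have h3 : Sl 2 * (x - o) ≤ s * (x - o) := mul_le_mul_of_nonneg_right h2 (by linarith)
      have h4 : s * (x - o) ≤ s * (gap / (4 * s)) :=
        mul_le_mul_of_nonneg_left (by linarith) (by linarith)
      have h5 : s * (gap / (4 * s)) = gap / 4 := by field_simp
      linarith
    have e1 : Sl 2 * (x - o) = Sl 2 * (x - t) - Sl 2 * (o - t) := by ring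
    linarith [hdLx.2, hdLo.1]
  refine Bas.mono 0 (hvis hPa (Rc.inj.mono fun y hy => by
    rw [Set.mem_Iio] at hy ⊢
    omega) (x := x) (by exact_mod_cast hx0.le) (by exact_mod_cast hx01) (e₁ := e₁) (h₁ := gap / 4)
    (he.trans_lt (mul_lt_mul_of_pos_left hx1 (by exact_mod_cast hθa))) (by linarith)
    (by linarith) K₁ K₂ hK₁ hK₂) ?_
  intro J _ F A H B B' n k e DB hb Q w g' G' H' N' o' s0 s1 sm ctr ρ S' sd Yc X κ' η' c' T' hBA hPA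
    V' hk hwk hOK hcl hB hDB hκ he' hgJ hg2 hcC' hB' hPB'
  have hJ0 : (0 : ℝ) ≤ J := Nat.cast_nonneg J
  rw [← ho] at hg2 hwk
  have f1 := Nat.floor_le (show 0 ≤ ℓ * (J : ℝ) by positivity)
  have hcast : ((2 * ⌊ℓ * J⌋₊ : ℕ) : ℝ) ≤ 2 * ℓ * J := by
    push_cast
    linarith
  refine H (L := 2 * ⌊ℓ * J⌋₊) (Λ := 2 ^ ⌊ℓ * J⌋₊) hBA hPA V' hk hOK hcl hB hDB hκ ?_ he' hgJ
    (one_le_pow₀ (by norm_num)) ?_ ?_ ?_ hB' hPB'
  · rw [hwk]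
    exact Nat.floor_le_floor (mul_le_mul_of_nonneg_right hx1.le hJ0)
  · calc C * 2 ^ hb * 2 ^ ⌊ℓ * J⌋₊ ≤ 2 ^ cC * 2 ^ hb * 2 ^ ⌊ℓ * J⌋₊ :=
          mul_le_mul_of_nonneg_right (mul_le_mul_of_nonneg_right hcC.le (by positivity))
            (by positivity)
      _ = 2 ^ (cC + hb + ⌊ℓ * J⌋₊) := by rw [← pow_add, ← pow_add]
      _ ≤ _ := pow_le_pow_right₀ (by norm_num) (by omega)
  · have f2 := Nat.floor_le (show 0 ≤ (alt Pa θa D c 2 x x + gap / 4) * (J : ℝ) from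
      mul_nonneg (by
        have : (x : ℝ) ≤ alt Pa θa D c 2 x x := hPa.low _ _ _ hx0.le le_rfl hx01
        linarith) hJ0)
    have h1 : (alt Pa θa D c 2 x x + gap / 4) * (J : ℝ) + 2 * ℓ * J ≤ g' k 2 := by
      refine le_trans ?_ hg2
      rw [← add_mul]
      refine mul_le_mul_of_nonneg_right ?_ hJ0
      rw [hgap] at hslope ⊢
      linarith
    have h2 : ⌊(alt Pa θa D c 2 x x + gap / 4) * (J : ℝ)⌋₊ + 2 * ⌊ℓ * J⌋₊ ≤ g' k 2 := by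
      have : ((⌊(alt Pa θa D c 2 x x + gap / 4) * (J : ℝ)⌋₊ + 2 * ⌊ℓ * J⌋₊ : ℕ) : ℝ) ≤
          (g' k 2 : ℝ) := by
        rw [Nat.cast_add]
        linarith
      exact_mod_cast this
    have h3 : w k ≤ ⌊(x : ℝ) * J⌋₊ := by
      rw [hwk]
      exact Nat.floor_le_floor (mul_le_mul_of_nonneg_right hx1.le hJ0)
    omega
  · have h1 : 2 * ℓ * (J : ℝ) ≤ (L 2 o o - η * q) * J := by
      refine mul_le_mul_of_nonneg_right ?_ hJ0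
      have : 0 ≤ ε * q := mul_nonneg hε hq.le
      linarith
    have h2 : ((2 * ⌊ℓ * J⌋₊ : ℕ) : ℝ) ≤ (g' k 2 : ℝ) := by linarith
    exact_mod_cast h2

/-- **Natural second derivatives at a record.** `W`: the place of the window; `W - ξ`: a window of the
record before it; `δ`: the defect of the threshold of degree one. -/
theorem inv_rec (D : ℕ) (hD : 1 ≤ D) : ∃ C : ℕ, ∀ {m : ℕ} {S : PCl m} {al : ℝ} {g₀ : ℝ → ℝ}
    {P : List (Fin m) × Fin m → ℝ → ℝ → ℝ} {θ : ℝ}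
    {P₂ : ℕ → List (Fin m) × Fin m → ℝ → ℝ → ℝ} {θ₂ Eb e₂ : ℕ → ℝ} {c : ℕ → Fin m}
    {Pt : ℝ → ℝ → ℝ} {rr : ℝ → ℝ} {h K₀ g : ℝ} {L T : ℕ → ℝ → ℝ → ℝ} {Sl : ℕ → ℝ}
    {κ : ℕ → Kg} {G : Set ℝ} {S₀ N : ℕ} {A V : ℕ → ℝ} {S₂ N' : ℕ} {V' : ℕ → ℝ} {K ε q t : ℝ}
    {Pa : (ℚ × ℕ) × (List (Fin m) × Fin m) → ℝ → ℝ → ℝ} {θa : ℚ} {W ξ δ ζ : ℝ} {j : ℕ},
    RecG S al g₀ P θ P₂ θ₂ Eb e₂ c Pt rr h K₀ g L T Sl κ G S₀ N A V S₂ N' V' K ε q t →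
    3 < m → ThrOf (affsys m) S Pa → 0 ≤ ε → 0 ≤ θa → |W| + 1 ≤ K → 0 < ξ → ξ ≤ 1 →
    j < N' → V' j = W - ξ → θa * (t + W * q) ≤ e₂ 3 →
    L 2 (t + W * q) (t + W * q) ≤ alt Pa θa D c 2 (t + W * q) (t + W * q) + δ →
    δ + 2 * ε * q < (Sl 2 - 1) * ξ * q → δ + ξ * q < ζ → Bas S (fun J F A =>
    ∀ {B B' : F.Ω → Prop} {n k e Dr h : ℕ} {w : ℕ → ℕ} {g : ℕ → ℕ → ℕ}
      {G : ℕ → PtT F → ℕ → MvPolynomial (Option (Fin m)) ℝ}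
      {H : LnT F → ℕ → MvPolynomial (Option (Fin m)) ℝ} {N : F.Ω → AfN} {o s0 s1 sm : ℕ}
      {ctr : ℕ → F.Ω → Fin 3 → ℝ} {ρ : ℕ → ℝ} {κ κ' : ℝ}, Sub B A →
      Frm F c B n w g G N o s0 s1 sm ctr ρ → k ≤ n → w k = ⌊(t + W * q) * J⌋₊ →
      ChOK F c 3 (fun _ => D) (w k) (w k) e (g k) B (G k) H →
      RelvF F c 3 (w k) (w k) (g k) Dr h κ B (G k) → D ≤ Dr →
      (∀ ω, B' ω → B ω) → κ' * Pe F.p B ≤ Pe F.p B' → κ * 2 ^ 4 ≤ κ' →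
      (g k 2 : ℝ) ≤ L 2 (t + W * q) (t + W * q) * J →
      ∃ B'' : F.Ω → Prop, (∀ ω, B'' ω → B' ω) ∧ Pe F.p B' ≤ 8 * Pe F.p B'' ∧
        ∀ ω, B'' ω → ∀ b, Cu (ctr k ω) (ρ k) b → ∀ i j,
          |h3 (UU F c G N o s0 s1 k ω) b i j| ≤
            2 ^ (C * (h + sm + 1) + ⌈ζ * J⌉₊) / 2 ^ g k 2 / ρ k ^ 2) := by
  obtain ⟨C, hinv⟩ := aff_inv D hD
  refine ⟨C, ?_⟩
  intro m S al g₀ P θ P₂ θ₂ Eb e₂ c Pt rr h K₀ g L T Sl κ G S₀ N A V S₂ N' V' K ε q t Pa θa W ξ δ ζ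
    j Rc hm hPa hε hθa hWK hξ hξ1 hj hV hθe hal hδ hζ
  have hq := Rc.q0
  have Tg := Rc.tg 3 (by norm_num) hm
  obtain ⟨o, ho⟩ : ∃ o : ℝ, o = t + W * q := ⟨_, rfl⟩
  rw [← ho] at hθe hal
  have hWq : |W * q| + q ≤ K * q := by
    have := mul_le_mul_of_nonneg_right hWK hq.le
    rw [abs_mul, abs_of_pos hq]
    linarith
  have hot : |o - t| + q ≤ K * q := by
    rw [ho, add_sub_cancel_left]
    exact hWq
  have hoK : |o - t| ≤ K * q := by linarith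
  have ho0 : 0 < o := by
    have := (abs_le.1 hoK).1
    linarith [Rc.t0]
  have ho1 : o ≤ 1 := by
    have := (abs_le.1 hoK).2
    linarith [Rc.t1]
  have hξq : 0 < ξ * q := by positivity
  have hξq1 : ξ * q ≤ q := mul_le_of_le_one_left hq.le hξ1
  obtain ⟨v, hv⟩ : ∃ v : ℝ, v = o - ξ * q := ⟨_, rfl⟩
  have hvV : t + V' j * q = v := by
    rw [hV, hv, ho]
    ring
  have hvt : |v - t| ≤ K * q := by
    have h1 := abs_le.1 (show |o - t| ≤ K * q - q by linarith)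
    rw [hv, abs_le]
    constructor <;> linarith [h1.1, h1.2]
  obtain ⟨gap, hgap⟩ : ∃ gap : ℝ, gap = (Sl 2 - 1) * ξ * q - (δ + 2 * ε * q) := ⟨_, rfl⟩
  have hgap0 : 0 < gap := by rw [hgap]; linarith
  obtain ⟨d₁, hd₁, hrat⟩ := Tg.ratc j hj (gap / 4) (by positivity)
  rw [hvV] at hrat
  obtain ⟨y, hy1, hy2⟩ := exists_rat_btwn (show v < v + min d₁ (ξ * q) by
    have : 0 < min d₁ (ξ * q) := lt_min hd₁ hξq
    linarith)
  have hyo : (y : ℝ) < o := by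
    have := min_le_right d₁ (ξ * q)
    rw [hv] at hy2
    linarith
  have hyd : (y : ℝ) ≤ v + d₁ := by
    have := min_le_left d₁ (ξ * q)
    linarith
  have hbet := hrat y hy1.le hyd 2 (by norm_num)
  have hyt : |(y : ℝ) - t| ≤ K * q := by
    have h1 := abs_le.1 hvt
    have h2 := abs_le.1 hoK
    rw [abs_le]
    constructor <;> linarith [h1.1, h2.2]
  have hv0 : 0 < v := by
    have := (abs_le.1 hvt).1
    linarith [Rc.t0]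
  have hy0 : (0 : ℝ) ≤ y := by linarith
  have hdLv := abs_le.1 (Rc.dL 2 (by omega) v hvt)
  have hdLo := abs_le.1 (Rc.dL 2 (by omega) o hoK)
  have hLv : L 2 v v ≤ L 2 o o - Sl 2 * (ξ * q) + 2 * (ε * q) := by
    have e1 : Sl 2 * (v - t) = Sl 2 * (o - t) - Sl 2 * (ξ * q) := by rw [hv]; ring
    linarith [hdLv.2, hdLo.1]
  have halo : o ≤ alt Pa θa D c 2 o o := hPa.low _ o o ho0.le le_rfl ho1
  have hal1 : alt Pa θa D c 2 o o ≤ 1 := hPa.up _ o o ho0.le le_rfl ho1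
  obtain ⟨z, hz⟩ : ∃ z : ℝ, z = ζ - (δ + ξ * q) := ⟨_, rfl⟩
  have hz0 : 0 < z := by rw [hz]; linarith
  obtain ⟨h₁, hh₁⟩ : ∃ h₁ : ℝ, h₁ = min (gap / 8) (min (z / 2) (o / 2)) := ⟨_, rfl⟩
  have hh0 : 0 < h₁ := by rw [hh₁]; positivity
  have hhg : h₁ ≤ gap / 8 := by rw [hh₁]; exact min_le_left _ _
  have hhz : h₁ ≤ z / 2 := by rw [hh₁]; exact (min_le_right _ _).trans (min_le_left _ _)
  have hho : h₁ ≤ o / 2 := by rw [hh₁]; exact (min_le_right _ _).trans (min_le_right _ _)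
  have hs : bet (P₂ 3) c 2 y y + (o - y) + 2 * h₁ < alt Pa θa D c 2 o o := by
    have h1 : o - y ≤ ξ * q := by
      rw [hv] at hy1
      linarith
    have e1 : gap = (Sl 2 * (ξ * q) - ξ * q) - (δ + 2 * (ε * q)) := by rw [hgap]; ring
    linarith
  obtain ⟨J₁, hJ₁⟩ := big (2 : ℝ) (show 0 < z / 2 by positivity)
  refine Bas.mono J₁ (hinv hPa Tg.thr₂ (Rc.inj.mono fun y hy => by
    rw [Set.mem_Iio] at hy ⊢
    omega) (θ := θa) (y := y) (x := o) (h₁ := h₁) hθa (by exact_mod_cast hy0) hyo ho1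
    (hθe.trans_lt (Tg.eθ y hyt)) hh0 (by linarith) hs (by linarith)) ?_
  intro J hJ F A H B B' n k e Dr hb w g' G' H' N' o' s0 s1 sm ctr ρ κ₁ κ₂ hBA V' hk hwk hOK hR hDr
    hB' hP' hκ hg2
  have hJ0 : (0 : ℝ) ≤ J := Nat.cast_nonneg J
  have j1 := hJ₁ J hJ
  rw [← ho] at hg2 hwk
  refine H (u := ⌈ζ * J⌉₊) hBA V' hk hwk hOK hR hDr hB' hP' hκ ?_
  have f1 := Nat.le_ceil (ζ * (J : ℝ))
  have f2 := Nat.lt_floor_add_one ((alt Pa θa D c 2 o o - h₁) * (J : ℝ))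
  have f3 := Nat.lt_floor_add_one ((y : ℝ) * (J : ℝ))
  have f4 := Nat.floor_le (show 0 ≤ o * (J : ℝ) by positivity)
  have h1 : L 2 o o * (J : ℝ) + o * J + 2 ≤ (alt Pa θa D c 2 o o - h₁) * J + y * J + ζ * J := by
    have h2 : 0 ≤ (alt Pa θa D c 2 o o - h₁ + y + ζ - L 2 o o - o - z / 2) * (J : ℝ) := by
      refine mul_nonneg ?_ hJ0
      rw [hv] at hy1
      rw [hz] at hhz ⊢
      linarith
    have e1 : (alt Pa θa D c 2 o o - h₁ + y + ζ - L 2 o o - o - z / 2) * (J : ℝ) =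
        (alt Pa θa D c 2 o o - h₁) * J + y * J + ζ * J - L 2 o o * J - o * J - z / 2 * J := by ring
    rw [e1] at h2
    linarith
  rw [hwk]
  have h2 : ((g' k 2 + ⌊o * J⌋₊ : ℕ) : ℝ) ≤
      ((⌊(alt Pa θa D c 2 o o - h₁) * J⌋₊ + ⌊(y : ℝ) * J⌋₊ + ⌈ζ * J⌉₊ : ℕ) : ℝ) := by
    push_cast
    linarith
  exact_mod_cast h2

end Pool.AFF60
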