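import Pool.Agent.H60.AFF.Aat
import Pool.Agent.H60.AFF.Afs

/-!
# Visible and invisible second derivatives of the chart of `u`, in a class

`aff_vis`: below the threshold of the charts of degree one, the second derivatives of the closed chart
of `u` are large at the own points, on large parts of all events. `aff_inv`: at the threshold of degree
one they are natural on the whole cube.
-/

set_option autoImplicit false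

namespace Pool.AFF60

open Finset Real MvPolynomial
open Pool.Agent.H49.Ent Pool.Agent.H32.Dense Pool.STK Pool.KA Pool.KSAT Pool.K2S Pool.PB Pool.S6C
open Pool.GEN Pool.CHT Pool.CHX Pool.ISO Pool.D2R
open Pool.LBT (LSys Slo Tri ThrOf)
open Pool.LEV (Law)
open Pool.CUB46 (h3)
open Pool.AFF82 (AfN afc)
open Pool.CNC76 Pool.CNC28

/-- **Visible second derivatives.** `x`: a rational point at or after the window; `alt + h₁`: the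
precision which charts of degree one do not reach. -/
theorem aff_vis (D : ℕ) (hD : 1 ≤ D) : ∃ C : ℝ, 1 ≤ C ∧ ∀ {m : ℕ} {S : PCl m}
    {Pa : (ℚ × ℕ) × (List (Fin m) × Fin m) → ℝ → ℝ → ℝ} {θ x : ℚ} {c : ℕ → Fin m} {e₁ h₁ : ℝ},
    ThrOf (affsys m) S Pa → Set.InjOn c (Set.Iio 3) → 0 ≤ x → x ≤ 1 → e₁ < θ * x → 0 < h₁ →
    alt Pa θ D c 2 x x + h₁ ≤ 1 → ∀ K₁ K₂ : ℝ, 0 < K₁ → 0 < K₂ → Bas S (fun J F A =>
    ∀ {B B' : F.Ω → Prop} {n k e DB h Q L : ℕ} {w : ℕ → ℕ} {g : ℕ → ℕ → ℕ}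
      {G : ℕ → PtT F → ℕ → MvPolynomial (Option (Fin m)) ℝ}
      {H : LnT F → ℕ → MvPolynomial (Option (Fin m)) ℝ} {N : F.Ω → AfN} {o s0 s1 sm : ℕ}
      {ctr : ℕ → F.Ω → Fin 3 → ℝ} {ρ : ℕ → ℝ} {S' : Type} {sd : F.Ω → S'}
      {Yc X : F.Ω → Fin 3 → ℝ} {κ η c' T Λ : ℝ}, Sub B A → Pe F.p A ≤ K₁ * Pe F.p B →
      Frm F c B n w g G N o s0 s1 sm ctr ρ → k ≤ n →
      ChOK F c 3 (fun _ => D) (w k) (w k) e (g k) B (G k) H → Clsd F 3 (w k) B (G k) H →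
      Bll F.p B (ptr F J) (slam F (w k)) sd
        (unt (fun ω => afc c (N ω) o s0 s1 (bt F ω)) (ctr k) (ρ k)) Yc X DB h Q κ η c' T →
      D ≤ DB → 4 * (κ * K₂) ≤ 1 → w k ≤ ⌊(x : ℝ) * J⌋₊ → e ≤ ⌊e₁ * J⌋₊ → (∀ l ≤ 2, g k l ≤ J) →
      1 ≤ Λ → C * 2 ^ h * Λ ≤ 2 ^ L →
      ⌊(alt Pa θ D c 2 x x + h₁) * J⌋₊ + w k + L ≤ g k 2 + ⌊(x : ℝ) * J⌋₊ → L ≤ g k 2 →
      (∀ ω, B' ω → B ω) → Pe F.p B ≤ K₂ * Pe F.p B' →
      ∃ B'' : F.Ω → Prop, (∀ ω, B'' ω → B' ω) ∧ Pe F.p B' ≤ 2 * Pe F.p B'' ∧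
        ∀ ω, B'' ω → ∃ i j, Λ / 2 ^ g k 2 / ρ k ^ 2 <
          |h3 (UU F c G N o s0 s1 k ω) (afc c (N ω) o s0 s1 (bt F ω)) i j|) := by
  classical
  obtain ⟨C, hC, hno⟩ := aff_no D hD
  refine ⟨C, hC, ?_⟩
  intro m S Pa θ x c e₁ h₁ hPa hc hx hx1 he hh h1 K₁ K₂ hK₁ hK₂
  have hlab := no_aff hPa θ D c 2 x x e₁ h₁ hx le_rfl hx1 he hh h1
  refine Bas.mono 0 (bas_ev hlab (κ := 1 / (4 * K₁ * K₂)) (by positivity)) ?_
  intro J _ F A hA B B' n k e DB h Q L w g G H N o s0 s1 sm ctr ρ S' sd Yc X κ η c' T Λ hBA hPA V hk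
    hOK hcl hb hDB hκ hwk hek hgJ hΛ hL hlev hLg hB' hPB'
  have hp := F.isLaw.nonneg
  have hB'0 : 0 ≤ Pe F.p B' := pe_nn hp _
  obtain ⟨E, hE⟩ : ∃ E : F.Ω → Prop, E = fun ω => ∀ i j,
      |h3 (UU F c G N o s0 s1 k ω) (afc c (N ω) o s0 s1 (bt F ω)) i j| ≤
        Λ / 2 ^ g k 2 / ρ k ^ 2 := ⟨_, rfl⟩
  have hspl := pe_spl hp B' E
  by_cases hcase : Pe F.p B' ≤ 2 * Pe F.p (fun ω => B' ω ∧ ¬ E ω)
  · refine ⟨fun ω => B' ω ∧ ¬ E ω, fun ω hω => hω.1, hcase, fun ω hω => ?_⟩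
    have h2 := hω.2
    rw [hE] at h2
    push Not at h2
    exact h2
  exfalso
  have hE2 : Pe F.p B' ≤ 2 * Pe F.p (fun ω => B' ω ∧ E ω) := by
    have := not_le.1 hcase
    linarith
  obtain ⟨B'', k1, k2, k3⟩ := hno (B' := fun ω => B' ω ∧ E ω) hc V hk hOK hcl hb hDB
    (fun ω hω => hB' ω hω.1) hΛ hL hLg (fun ω hω i j => by
      have h2 := hω.2
      rw [hE] at h2
      exact h2 i j)
  have hκ0 : 0 ≤ κ := hb.κ0
  have hm1 : κ * Pe F.p B ≤ Pe F.p B' / 4 := by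
    have h3 : κ * Pe F.p B ≤ κ * (K₂ * Pe F.p B') := mul_le_mul_of_nonneg_left hPB' hκ0
    have h4 : 4 * (κ * K₂) * Pe F.p B' ≤ 1 * Pe F.p B' := mul_le_mul_of_nonneg_right hκ hB'0
    linarith
  have hm2 : Pe F.p B' ≤ 4 * Pe F.p B'' := by linarith
  refine hA B'' (fun ω hω => hBA ω (hB' ω (k1 ω hω).1)) ?_ (w k) (w k) e
    (fun j => if j = 2 then g k 2 - L else g k j) le_rfl hwk hwk hek (fun l hl => ?_) ?_ k3
  · rw [one_div, inv_mul_le_iff₀ (by positivity)]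
    have h3 : K₁ * Pe F.p B ≤ K₁ * (K₂ * Pe F.p B') := mul_le_mul_of_nonneg_left hPB' hK₁.le
    have h4 : K₁ * K₂ * Pe F.p B' ≤ K₁ * K₂ * (4 * Pe F.p B'') :=
      mul_le_mul_of_nonneg_left hm2 (by positivity)
    calc Pe F.p A ≤ K₁ * Pe F.p B := hPA
      _ ≤ K₁ * (K₂ * Pe F.p B') := h3
      _ = K₁ * K₂ * Pe F.p B' := by ring
      _ ≤ K₁ * K₂ * (4 * Pe F.p B'') := h4
      _ = _ := by ring
  · show (if l = 2 then g k 2 - L else g k l) ≤ J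
    split_ifs
    · exact (Nat.sub_le _ _).trans (hgJ 2 le_rfl)
    · exact hgJ l hl
  · show _ ≤ (if 2 = 2 then g k 2 - L else g k 2) + _
    rw [if_pos rfl]
    omega

/-- **Natural second derivatives** at the threshold of degree one, if the threshold of all charts has
slope more than one. -/
theorem aff_inv (D : ℕ) (hD : 1 ≤ D) : ∃ C : ℕ, ∀ {m : ℕ} {S : PCl m}
    {Pa : (ℚ × ℕ) × (List (Fin m) × Fin m) → ℝ → ℝ → ℝ}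
    {P : List (Fin m) × Fin m → ℝ → ℝ → ℝ} {θ' : ℝ} {θ y : ℚ} {c : ℕ → Fin m} {x h₁ : ℝ},
    ThrOf (affsys m) S Pa → ThrOf (chsys m θ') S P → Set.InjOn c (Set.Iio 3) → 0 ≤ θ → 0 ≤ y →
    y < x → x ≤ 1 → (θ : ℝ) * x < θ' * y → 0 < h₁ → h₁ < alt Pa θ D c 2 x x →
    bet P c 2 y y + (x - y) + 2 * h₁ < alt Pa θ D c 2 x x → bet P c 2 y y + h₁ ≤ 1 →
    Bas S (fun J F A =>
    ∀ {B B' : F.Ω → Prop} {n k e Dr h u : ℕ} {w : ℕ → ℕ} {g : ℕ → ℕ → ℕ}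
      {G : ℕ → PtT F → ℕ → MvPolynomial (Option (Fin m)) ℝ}
      {H : LnT F → ℕ → MvPolynomial (Option (Fin m)) ℝ} {N : F.Ω → AfN} {o s0 s1 sm : ℕ}
      {ctr : ℕ → F.Ω → Fin 3 → ℝ} {ρ : ℕ → ℝ} {κ κ' : ℝ}, Sub B A →
      Frm F c B n w g G N o s0 s1 sm ctr ρ → k ≤ n → w k = ⌊x * J⌋₊ →
      ChOK F c 3 (fun _ => D) (w k) (w k) e (g k) B (G k) H →
      RelvF F c 3 (w k) (w k) (g k) Dr h κ B (G k) → D ≤ Dr →
      (∀ ω, B' ω → B ω) → κ' * Pe F.p B ≤ Pe F.p B' → κ * 2 ^ 4 ≤ κ' →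
      g k 2 + w k ≤ ⌊(alt Pa θ D c 2 x x - h₁) * J⌋₊ + ⌊(y : ℝ) * J⌋₊ + u →
      ∃ B'' : F.Ω → Prop, (∀ ω, B'' ω → B' ω) ∧ Pe F.p B' ≤ 8 * Pe F.p B'' ∧
        ∀ ω, B'' ω → ∀ b, Cu (ctr k ω) (ρ k) b → ∀ i j,
          |h3 (UU F c G N o s0 s1 k ω) b i j| ≤
            2 ^ (C * (h + sm + 1) + u) / 2 ^ g k 2 / ρ k ^ 2) := by
  obtain ⟨C, hatt⟩ := aff_att D hD
  refine ⟨C, ?_⟩
  intro m S Pa P θ' θ y c x h₁ hPa hP hc hθ hy hyx hx1 hθy hh hh1 hs h1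
  refine Bas.mono 0 (aff_lab hPa hP hθ D c 2 hy hyx hx1 hθy hh hh1 hs h1) ?_
  rintro J _ F A ⟨a₀, w₀, e₀, g', k1, k2, k3, -, k4, -, k6⟩ B B' n k e Dr h u w g G H N o s0 s1 sm
    ctr ρ κ κ' hBA V hk hwk hOK hR hDr hB hP' hκ hu
  have hJ0 : (0 : ℝ) ≤ J := Nat.cast_nonneg J
  have hwJ : w k ≤ J := by
    rw [hwk]
    exact Pool.LBT.fl_le' hx1 J
  exact hatt (a₀ := a₀) (w₀ := w₀) (e' := e₀) (g' := g') hc V hk hwJ hOK hR hDr hB hP' hκ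
    (by rw [hwk]; exact k2) (by rw [hwk]; exact k1.trans k2) (by rw [hwk] at hu; omega)
    (ChN.hered F _ _ _ _ _ _ _ A B' (fun ω hω => hBA ω (hB ω hω)) k6)

end Pool.AFF60
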